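import Pool.Agent.K3h26.R5.Stm

/-!
# The overlap of two truncated octahedra (times squares) at a hexagonal face
-/

set_option autoImplicit false

open MeasureTheory Set
open scoped ENNReal

namespace Pool.Agent.K3h92.R5

open H947TP Pool.Agent.K3h26.R5

/-- the volume of a parallelepiped given by a unimodular matrix -/
theorem vol_par (M : Matrix (Fin 5) (Fin 5) ℝ) (hM : |M.det| = 1) (a b : Fin 5 → ℝ) :
    volume ((Matrix.toLin' M) ⁻¹' (Icc a b)) = ∏ i, ENNReal.ofReal (b i - a i) := by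
  have h0 : LinearMap.det (Matrix.toLin' M) ≠ 0 := by
    rw [LinearMap.det_toLin']
    intro h
    rw [h, abs_zero] at hM
    exact zero_ne_one hM
  rw [Measure.addHaar_preimage_linearMap volume h0, LinearMap.det_toLin', abs_inv, hM, inv_one,
    ENNReal.ofReal_one, one_mul, Real.volume_Icc_pi]

/-- the volume of a parallelepiped given by a unimodular matrix, with a product of reals -/
theorem vol_par' (M : Matrix (Fin 5) (Fin 5) ℝ) (hM : |M.det| = 1) (a b : Fin 5 → ℝ)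
    (hab : ∀ i, a i ≤ b i) :
    volume ((Matrix.toLin' M) ⁻¹' (Icc a b)) = ENNReal.ofReal (∏ i, (b i - a i)) := by
  rw [vol_par M hM, ENNReal.ofReal_prod_of_nonneg fun i _ => sub_nonneg.2 (hab i)]

/-- the three matrices -/
def MM (s t u p q r w : ℝ) : Matrix (Fin 5) (Fin 5) ℝ :=
  !![p, q, 0, 0, 0; r, w, 0, 0, 0; s, t, u, 0, 0; 0, 0, 0, 1, 0; 0, 0, 0, 0, 1]

theorem det_MM (s t u p q r w : ℝ) : (MM s t u p q r w).det = (p * w - q * r) * u := by
  unfold MM
  simp [Matrix.det_succ_row_zero, Fin.sum_univ_succ, Fin.succAbove]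
  ring

theorem MM_apply (s t u p q r w : ℝ) (x : Fin 5 → ℝ) :
    Matrix.toLin' (MM s t u p q r w) x =
      ![p * x 0 + q * x 1, r * x 0 + w * x 1, s * x 0 + t * x 1 + u * x 2, x 3, x 4] := by
  funext i
  fin_cases i <;>
  simp [MM, Matrix.toLin'_apply, Matrix.mulVec, dotProduct, Fin.sum_univ_succ] <;> ring

/-- a sign -/
theorem exists_sign (a : ℝ) : ∃ s : ℝ, (s = 1 ∨ s = -1) ∧ s * a = |a| := by
  rcases le_total 0 a with h | h
  · exact ⟨1, Or.inl rfl, by rw [abs_of_nonneg h, one_mul]⟩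
  · exact ⟨-1, Or.inr rfl, by rw [abs_of_nonpos h]; ring⟩

theorem t_OVH : S_OVH := by
  intro v τ hv1 hv2 hv3 hτ hτ1
  obtain ⟨s0, hs0, h0⟩ := exists_sign (v 0)
  obtain ⟨s1, hs1, h1⟩ := exists_sign (v 1)
  obtain ⟨s2, hs2, h2⟩ := exists_sign (v 2)
  have hτ0 : 0 < τ := by rw [hτ]; linarith
  have hn : |v 0| + |v 1| + |v 2| = 3 - 3 * τ := by
    have : n1 v = 3 - 3 * τ := by rw [hτ]; ring
    exact this
  -- the intervals of the last two coordinates
  set a3 : ℝ := max (-(1 / 2)) (v 3 - 1 / 2) with ha3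
  set b3 : ℝ := min (1 / 2) (v 3 + 1 / 2) with hb3
  set a4 : ℝ := max (-(1 / 2)) (v 4 - 1 / 2) with ha4
  set b4 : ℝ := min (1 / 2) (v 4 + 1 / 2) with hb4
  have hmy3 : |v 3| < 1 := lt_of_le_of_lt (le_max_left _ _) hv3
  have hmy4 : |v 4| < 1 := lt_of_le_of_lt (le_max_right _ _) hv3
  have hl : ∀ w : ℝ, min (1 / 2) (w + 1 / 2) - max (-(1 / 2)) (w - 1 / 2) = 1 - |w| := by
    intro w
    rcases le_total 0 w with h | h
    · rw [min_eq_left (by linarith), max_eq_right (by linarith), abs_of_nonneg h]; ring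
    · rw [min_eq_right (by linarith), max_eq_left (by linarith), abs_of_nonpos h]; ring
  have hl3 : b3 - a3 = 1 - |v 3| := hl _
  have hl4 : b4 - a4 = 1 - |v 4| := hl _
  have h3p : 0 < 1 - |v 3| := by linarith
  have h4p : 0 < 1 - |v 4| := by linarith
  -- the three parallelepipeds
  set E1 : Set (Fin 5 → ℝ) := (Matrix.toLin' (MM s0 s1 s2 s0 s1 0 s1)) ⁻¹'
    (Icc ![1 / 2 - 3 * τ, -(3 / 2) * τ, 3 / 2 - 3 * τ, a3, a4] ![1, 1 / 2, 3 / 2, b3, b4]) with hE1
  set E2 : Set (Fin 5 → ℝ) := (Matrix.toLin' (MM s0 s1 s2 s0 0 s0 s1)) ⁻¹'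
    (Icc ![1 / 2, 1, 3 / 2 - 3 * τ, a3, a4] ![1, 3 / 2 + 3 / 2 * τ, 3 / 2, b3, b4]) with hE2
  set E3 : Set (Fin 5 → ℝ) := (Matrix.toLin' (MM s0 s1 s2 s0 0 0 s1)) ⁻¹'
    (Icc ![-(3 / 2) * τ, 1 / 2, 3 / 2 - 3 * τ, a3, a4] ![1 / 2, 1, 3 / 2, b3, b4]) with hE3
  have hs0' : |s0| = 1 := by rcases hs0 with h | h <;> rw [h] <;> simp
  have hs1' : |s1| = 1 := by rcases hs1 with h | h <;> rw [h] <;> simp
  have hs2' : |s2| = 1 := by rcases hs2 with h | h <;> rw [h] <;> simp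
  have hdet : |s0 * s1 * s2| = 1 := by rw [abs_mul, abs_mul, hs0', hs1', hs2']; norm_num
  have v1 : volume E1 = ENNReal.ofReal ((1 / 2 + 3 * τ) * (1 / 2 + 3 / 2 * τ) * (3 * τ) *
      (1 - |v 3|) * (1 - |v 4|)) := by
    rw [hE1, vol_par' _ (by rw [det_MM]; rw [← hdet]; congr 1; ring) _ _ (by
      intro i
      fin_cases i
      · show (1 / 2 - 3 * τ : ℝ) ≤ 1; linarith
      · show (-(3 / 2) * τ : ℝ) ≤ 1 / 2; linarith
      · show (3 / 2 - 3 * τ : ℝ) ≤ 3 / 2; linarith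
      · show a3 ≤ b3; linarith
      · show a4 ≤ b4; linarith)]
    congr 1
    rw [← hl3, ← hl4]
    simp [Fin.prod_univ_succ]
    ring
  have v2 : volume E2 = ENNReal.ofReal ((1 / 2) * (1 / 2 + 3 / 2 * τ) * (3 * τ) *
      (1 - |v 3|) * (1 - |v 4|)) := by
    rw [hE2, vol_par' _ (by rw [det_MM]; rw [← hdet]; congr 1; ring) _ _ (by
      intro i
      fin_cases i
      · show (1 / 2 : ℝ) ≤ 1; linarith
      · show (1 : ℝ) ≤ 3 / 2 + 3 / 2 * τ; linarith
      · show (3 / 2 - 3 * τ : ℝ) ≤ 3 / 2; linarith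
      · show a3 ≤ b3; linarith
      · show a4 ≤ b4; linarith)]
    congr 1
    rw [← hl3, ← hl4]
    simp [Fin.prod_univ_succ]
    ring
  have v3 : volume E3 = ENNReal.ofReal ((1 / 2) * (1 / 2 + 3 / 2 * τ) * (3 * τ) *
      (1 - |v 3|) * (1 - |v 4|)) := by
    rw [hE3, vol_par' _ (by rw [det_MM]; rw [← hdet]; congr 1; ring) _ _ (by
      intro i
      fin_cases i
      · show (-(3 / 2) * τ : ℝ) ≤ 1 / 2; linarith
      · show (1 / 2 : ℝ) ≤ 1; linarith
      · show (3 / 2 - 3 * τ : ℝ) ≤ 3 / 2; linarith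
      · show a3 ≤ b3; linarith
      · show a4 ≤ b4; linarith)]
    congr 1
    rw [← hl3, ← hl4]
    simp [Fin.prod_univ_succ]
    ring
  have hsub : Pt 1 ∩ tr v (Pt 1) ⊆ E1 ∪ (E2 ∪ E3) := by
    rintro x ⟨⟨x1, x2, x3⟩, y, ⟨y1, y2, y3⟩, rfl⟩
    simp only [n1, ni, my, Pi.add_apply] at x1 x2 x3 y1 y2 y3
    set x : Fin 5 → ℝ := v + y with hx
    have ex : ∀ i, v i + y i = x i := fun i => rfl
    simp only [ex] at x1 x2 x3
    have ey : ∀ i, y i = x i - v i := fun i => by rw [← ex]; ring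
    simp only [ey] at y1 y2 y3
    have key : ∀ (s z : ℝ), (s = 1 ∨ s = -1) → s * z ≤ |z| ∧ -(s * z) ≤ |z| := by
      rintro s z (h | h) <;> rw [h] <;> constructor
      · rw [one_mul]; exact le_abs_self z
      · rw [one_mul]; exact neg_le_abs z
      · rw [neg_one_mul]; exact neg_le_abs z
      · rw [neg_one_mul, neg_neg]; exact le_abs_self z
    have k0 := key s0 (x 0) hs0
    have k1 := key s1 (x 1) hs1
    have k2 := key s2 (x 2) hs2
    have l0 := (key s0 (x 0 - v 0) hs0).2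
    have l1 := (key s1 (x 1 - v 1) hs1).2
    have l2 := (key s2 (x 2 - v 2) hs2).2
    rw [mul_sub, h0] at l0
    rw [mul_sub, h1] at l1
    rw [mul_sub, h2] at l2
    have m0 : |x 0| < 1 := lt_of_le_of_lt (le_max_left _ _) x2
    have m1 : |x 1| < 1 := lt_of_le_of_lt ((le_max_left _ _).trans (le_max_right _ _)) x2
    have m2 : |x 2| < 1 := lt_of_le_of_lt ((le_max_right _ _).trans (le_max_right _ _)) x2
    have m3 : |x 3| < 1 / 2 := by
      have := lt_of_le_of_lt (le_max_left _ _) x3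
      linarith
    have m4 : |x 4| < 1 / 2 := by
      have := lt_of_le_of_lt (le_max_right _ _) x3
      linarith
    have p3 : |x 3 - v 3| < 1 / 2 := by
      have := lt_of_le_of_lt (le_max_left _ _) y3
      linarith
    have p4 : |x 4 - v 4| < 1 / 2 := by
      have := lt_of_le_of_lt (le_max_right _ _) y3
      linarith
    rw [abs_lt] at m3 m4 p3 p4
    have hc1 : s0 * x 0 + s1 * x 1 + s2 * x 2 ≤ 3 / 2 := by linarith [k0.1, k1.1, k2.1]
    have hc2 : 3 / 2 - 3 * τ ≤ s0 * x 0 + s1 * x 1 + s2 * x 2 := by linarith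
    have q0 : -(3 / 2) * τ ≤ s0 * x 0 := by
      have e1 : |x 0| - s0 * x 0 ≤ 3 * τ := by linarith [k1.1, k2.1]
      linarith [k0.2]
    have q1 : -(3 / 2) * τ ≤ s1 * x 1 := by
      have e1 : |x 1| - s1 * x 1 ≤ 3 * τ := by linarith [k0.1, k2.1]
      linarith [k1.2]
    have q2 : -(3 / 2) * τ ≤ s2 * x 2 := by
      have e1 : |x 2| - s2 * x 2 ≤ 3 * τ := by linarith [k0.1, k1.1]
      linarith [k2.2]
    have hI3 : a3 ≤ x 3 ∧ x 3 ≤ b3 :=
      ⟨max_le (by linarith) (by linarith), le_min (by linarith) (by linarith)⟩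
    have hI4 : a4 ≤ x 4 ∧ x 4 ≤ b4 :=
      ⟨max_le (by linarith) (by linarith), le_min (by linarith) (by linarith)⟩
    have mk : ∀ (p q r w α α' β β' : ℝ), α ≤ p * x 0 + q * x 1 → p * x 0 + q * x 1 ≤ α' →
        β ≤ r * x 0 + w * x 1 → r * x 0 + w * x 1 ≤ β' →
        x ∈ (Matrix.toLin' (MM s0 s1 s2 p q r w)) ⁻¹'
          (Icc ![α, β, 3 / 2 - 3 * τ, a3, a4] ![α', β', 3 / 2, b3, b4]) := by
      intro p q r w α α' β β' g1 g2 g3 g4
      rw [mem_preimage, MM_apply, mem_Icc]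
      constructor
      · intro i
        fin_cases i
        · exact g1
        · exact g3
        · exact hc2
        · exact hI3.1
        · exact hI4.1
      · intro i
        fin_cases i
        · exact g2
        · exact g4
        · exact hc1
        · exact hI3.2
        · exact hI4.2
    by_cases c1 : s1 * x 1 ≤ 1 / 2
    · by_cases c2 : s0 * x 0 + s1 * x 1 ≤ 1
      · left
        refine mk _ _ _ _ _ _ _ _ (by linarith [k2.1]) c2 (by linarith) (by linarith)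
      · right; left
        refine mk _ _ _ _ _ _ _ _ (by linarith) (by linarith [k0.1]) (by linarith) (by linarith)
    · by_cases c3 : s0 * x 0 ≤ 1 / 2
      · right; right
        refine mk _ _ _ _ _ _ _ _ (by linarith) (by linarith) (by linarith) (by linarith [k1.1])
      · right; left
        refine mk _ _ _ _ _ _ _ _ (by linarith) (by linarith [k0.1]) (by linarith) (by linarith)
  have hP : 0 ≤ (1 - |v 3|) * (1 - |v 4|) := by positivity
  have n1' : 0 ≤ (1 / 2 + 3 * τ) * (1 / 2 + 3 / 2 * τ) * (3 * τ) * (1 - |v 3|) * (1 - |v 4|) := by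
    positivity
  have n2' : 0 ≤ (1 / 2) * (1 / 2 + 3 / 2 * τ) * (3 * τ) * (1 - |v 3|) * (1 - |v 4|) := by
    positivity
  calc volume (Pt 1 ∩ tr v (Pt 1)) ≤ volume (E1 ∪ (E2 ∪ E3)) := measure_mono hsub
    _ ≤ volume E1 + (volume E2 + volume E3) :=
        (measure_union_le _ _).trans (add_le_add le_rfl (measure_union_le _ _))
    _ = ENNReal.ofReal ((1 / 2 + 3 * τ) * (1 / 2 + 3 / 2 * τ) * (3 * τ) * (1 - |v 3|) *
          (1 - |v 4|) + ((1 / 2) * (1 / 2 + 3 / 2 * τ) * (3 * τ) * (1 - |v 3|) * (1 - |v 4|) +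
          (1 / 2) * (1 / 2 + 3 / 2 * τ) * (3 * τ) * (1 - |v 3|) * (1 - |v 4|))) := by
        rw [v1, v2, v3, ENNReal.ofReal_add n1' (add_nonneg n2' n2'), ENNReal.ofReal_add n2' n2']
    _ ≤ ENNReal.ofReal ((1 - |v 3|) * (1 - |v 4|) * (9 / 4 * τ * (1 + 10 * τ))) := by
        apply ENNReal.ofReal_le_ofReal
        have e : (1 / 2 + 3 * τ) * (1 / 2 + 3 / 2 * τ) * (3 * τ) * (1 - |v 3|) *
          (1 - |v 4|) + ((1 / 2) * (1 / 2 + 3 / 2 * τ) * (3 * τ) * (1 - |v 3|) * (1 - |v 4|) +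
          (1 / 2) * (1 / 2 + 3 / 2 * τ) * (3 * τ) * (1 - |v 3|) * (1 - |v 4|)) =
          ((1 - |v 3|) * (1 - |v 4|)) * ((1 / 2 + 3 / 2 * τ) * (3 / 2 + 3 * τ) * (3 * τ)) := by ring
        rw [e]
        apply mul_le_mul_of_nonneg_left _ hP
        nlinarith [mul_pos hτ0 hτ0, mul_pos (mul_pos hτ0 hτ0) hτ0,
          mul_le_mul_of_nonneg_left hτ1 (mul_pos hτ0 hτ0).le]

end Pool.Agent.K3h92.R5
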